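import Pool.Agent.N799.LH.Main

/-!
# The number of zeros of `p(d/ds) ζ` in the left half of unit windows
-/

set_option autoImplicit false

open Complex Metric Set Filter Topology Polynomial

namespace Pool.Agent.N799.ZD

open Pool.Agent.N799.SP Pool.Agent.N799.LH

theorem strip_cover (x0 : ℝ) (hx0 : 3 ≤ x0) : ∃ C : ℝ, 0 < C ∧
    ∀ (f : ℂ → ℂ) (t a : ℝ), 0 ≤ a →
    (∀ z : ℂ, -(1 / 4) ≤ z.re → |z.im - t| ≤ x0 + 2 →
      AnalyticAt ℂ f z ∧ ‖f z‖ ≤ Real.exp a) →
    (∀ y : ℝ, |y - t| ≤ 1 → Real.exp (-a) ≤ ‖f ⟨x0, y⟩‖) →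
    ZL f {z | -(1 / 16) ≤ z.re ∧ z.re ≤ 1 / 2 ∧ |z.im - t| ≤ 1} (C * a) := by
  obtain ⟨C, hC, hJ⟩ := jensen_ZL (x0 + 1 / 4) (x0 + 1 / 8) (by linarith) (by linarith)
  refine ⟨2 * C, by positivity, fun f t a ha hf hc => ?_⟩
  have h1 : ∀ y : ℝ, |y - t| ≤ 1 → ZL f (closedBall ⟨x0, y⟩ (x0 + 1 / 8)) (C * a) := by
    intro y hy
    have hy' := abs_le.1 hy
    have hmem : ∀ z ∈ closedBall (⟨x0, y⟩ : ℂ) (x0 + 1 / 4),
        -(1 / 4) ≤ z.re ∧ |z.im - t| ≤ x0 + 2 := by
      intro z hz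
      obtain ⟨h1, h2⟩ := cball_coords hz
      simp only at h1 h2
      have h1' := abs_le.1 h1
      have h2' := abs_le.1 h2
      refine ⟨by linarith, ?_⟩
      rw [abs_le]; constructor <;> linarith
    refine hJ f ⟨x0, y⟩ a ha ?_ ?_ (hc y hy)
    · intro z hz
      obtain ⟨h1, h2⟩ := hmem z hz
      exact (hf z h1 h2).1
    · intro z hz
      obtain ⟨h1, h2⟩ := hmem z hz
      exact (hf z h1 h2).2
  have h2 := (h1 (t - 1 / 2) (by rw [abs_le]; constructor <;> linarith)).union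
    (h1 (t + 1 / 2) (by rw [abs_le]; constructor <;> linarith))
  refine h2.mono ?_ (le_of_eq (by ring))
  rintro z ⟨hz1, hz2, hz3⟩
  have hz3' := abs_le.1 hz3
  have key : ∀ y : ℝ, |z.im - y| ≤ 1 / 2 → z ∈ closedBall (⟨x0, y⟩ : ℂ) (x0 + 1 / 8) := by
    intro y hy
    have hy' := abs_le.1 hy
    rw [mem_closedBall, dist_eq_norm]
    have e1 : ‖z - ⟨x0, y⟩‖ ^ 2 = (z.re - x0) ^ 2 + (z.im - y) ^ 2 := by
      rw [← Complex.normSq_eq_norm_sq, Complex.normSq_apply]
      simp only [sub_re, sub_im]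
      ring
    refine abs_le_of_sq_le_sq' ?_ (by linarith) |>.2
    rw [e1]
    have e2 : (z.re - x0) ^ 2 ≤ (x0 + 1 / 16) ^ 2 := by
      have h5 : 0 ≤ x0 - z.re := by linarith
      have h6 : x0 - z.re ≤ x0 + 1 / 16 := by linarith
      nlinarith
    have e3 : (z.im - y) ^ 2 ≤ 1 / 4 := by nlinarith
    nlinarith
  rcases le_total z.im t with h | h
  · left
    exact key _ (by rw [abs_le]; constructor <;> linarith)
  · right
    exact key _ (by rw [abs_le]; constructor <;> linarith)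

theorem D_growth (l : List ℂ) : ∃ C : ℝ, 1 ≤ C ∧ ∀ w : ℂ, -(1 / 4) ≤ w.re → 2 ≤ w.im →
    ‖TT l riemannZeta w‖ ≤ C * w.im ^ 2 := by
  obtain ⟨C1, hC1, h1⟩ := TT_bound l (1 / 4) (1 / 8) (by norm_num)
  obtain ⟨C2, hC2, h2⟩ := zeta_growth
  refine ⟨max 1 (C1 * (C2 * 2 ^ 2)), le_max_left _ _, fun w hw1 hw3 => ?_⟩
  have h3 := h1 riemannZeta w (C2 * (2 * w.im) ^ 2) (by positivity) (zeta_diffOn_up.mono fun z hz => by
      have := abs_lt.1 (ball_coords hz).2
      have h4 : 0 < z.im := by linarith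
      exact h4) (fun z hz => by
      have h5 := abs_lt.1 (ball_coords hz).2
      have h6 := abs_lt.1 (ball_coords hz).1
      refine (h2 z (by linarith) (by linarith)).trans ?_
      have : z.im ≤ 2 * w.im := by linarith
      have h0 : 0 ≤ z.im := by linarith
      gcongr) w (mem_ball_self (by norm_num))
  refine h3.trans ?_
  calc C1 * (C2 * (2 * w.im) ^ 2) = (C1 * (C2 * 2 ^ 2)) * w.im ^ 2 := by ring
    _ ≤ _ := by
      gcongr
      exact le_max_right _ _

/-- high zeros of `p(d/ds) ζ` have real part at least `-1/16` -/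
theorem D_left (p : ℂ[X]) (hp : p ≠ 0) : ∃ t₀ : ℝ, 4 ≤ t₀ ∧ ∀ s : ℂ, t₀ ≤ |s.im| → DD p s = 0 →
    -(1 / 16) ≤ s.re := by
  obtain ⟨H, t₀, h⟩ := (main p hp).1 (1 / 32) (by norm_num)
  refine ⟨max t₀ 4, le_max_right _ _, fun s hs h0 => ?_⟩
  by_contra hcon
  push Not at hcon
  obtain ⟨z, hz1, hz2, hz3⟩ := h.2 s h0 (by linarith) ((le_max_left _ _).trans hs)
  have h4 : 4 ≤ |s.im| := (le_max_right _ _).trans hs
  have h5 : |s.im| ≤ |z.im| + |z.im - s.im| := by
    have := abs_sub_abs_le_abs_sub s.im z.im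
    rw [abs_sub_comm] at this
    linarith
  have := (zeta_zero_re hz1 (by linarith)).1
  linarith

theorem D_count (p : ℂ[X]) (hp : p ≠ 0) : ∃ C t₀ : ℝ, 0 < C ∧ 4 ≤ t₀ ∧ ∀ t : ℝ, t₀ ≤ t →
    ZL (DD p) {s | s.re ≤ 1 / 2 ∧ |s.im - t| ≤ 1} (C * Real.log t) := by
  obtain ⟨σ0, c0, C0, hσ, hc0, hC0, _, _, hlow⟩ := G_data p.roots.toList
  obtain ⟨C, hC, hcov⟩ := strip_cover σ0 hσ
  obtain ⟨K, hK, hG⟩ := D_growth p.roots.toList
  obtain ⟨t1, ht1, hl⟩ := D_left p hp
  obtain ⟨t2, ht2, hlg⟩ := log_large (max 1 (max (Real.log (4 * K)) (-Real.log c0)))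
  refine ⟨C * 3, max (max t1 t2) (σ0 + 4) + 1, by positivity, ?_, fun t ht => ?_⟩
  · have : t1 ≤ max (max t1 t2) (σ0 + 4) := (le_max_left _ _).trans (le_max_left _ _)
    linarith
  have k1 : t1 + 1 ≤ t := by
    have : t1 ≤ max (max t1 t2) (σ0 + 4) := (le_max_left _ _).trans (le_max_left _ _)
    linarith
  have k2 : t2 ≤ t := by
    have : t2 ≤ max (max t1 t2) (σ0 + 4) := (le_max_right _ _).trans (le_max_left _ _)
    linarith
  have k3 : σ0 + 4 ≤ t := by
    have : σ0 + 4 ≤ max (max t1 t2) (σ0 + 4) := le_max_right _ _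
    linarith
  have hℓ := hlg t k2
  have c1 : 1 ≤ Real.log t := (le_max_left _ _).trans hℓ
  have c2 : Real.log (4 * K) ≤ Real.log t := ((le_max_left _ _).trans (le_max_right _ _)).trans hℓ
  have c3 : -Real.log c0 ≤ Real.log t := ((le_max_right _ _).trans (le_max_right _ _)).trans hℓ
  have ht0 : 0 < t := by linarith
  have hcnt := hcov (TT p.roots.toList riemannZeta) t (3 * Real.log t) (by positivity)
    (by
      intro z hz1 hz2
      have hz' := abs_le.1 hz2
      have him : 2 ≤ z.im := by linarith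
      refine ⟨TT_analytic _ (fun h => ?_), ?_⟩
      · rw [h, one_im] at him
        linarith
      · refine (hG z hz1 him).trans ?_
        have h1 : z.im ≤ 2 * t := by linarith
        calc K * z.im ^ 2 ≤ K * (2 * t) ^ 2 := by gcongr
          _ = (4 * K) * t ^ 2 := by ring
          _ = Real.exp (Real.log (4 * K)) * Real.exp (2 * Real.log t) := by
            rw [Real.exp_log (by positivity), ← Real.log_rpow ht0, Real.exp_log (by positivity)]
            norm_num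
          _ = Real.exp (Real.log (4 * K) + 2 * Real.log t) := by rw [← Real.exp_add]
          _ ≤ _ := Real.exp_le_exp.2 (by linarith))
    (by
      intro y hy
      refine le_trans ?_ (hlow ⟨σ0, y⟩ le_rfl (by simp))
      calc Real.exp (-(3 * Real.log t)) ≤ Real.exp (Real.log c0) := Real.exp_le_exp.2 (by linarith)
        _ = c0 := Real.exp_log hc0)
  rw [← ZL_DD p hp (by
    rintro s ⟨_, _, h2⟩ h1
    rw [h1, one_im, zero_sub, abs_neg, abs_of_nonneg (by linarith)] at h2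
    linarith)] at hcnt
  refine hcnt.mono' ?_ (le_of_eq (by ring))
  rintro z ⟨hz1, hz2⟩ h0
  have hz' := abs_le.1 hz2
  refine ⟨hl z ?_ h0, hz1, hz2⟩
  rw [abs_of_nonneg (by linarith)]
  linarith

/-- zeros of `p(d/ds) ζ` away from `1` have positive multiplicity -/
theorem D_pos (p : ℂ[X]) (hp : p ≠ 0) {s : ℂ} (hs : s ≠ 1) (h0 : DD p s = 0) :
    1 ≤ analyticOrderNatAt (DD p) s := by
  obtain ⟨σ0, c0, C0, hσ, hc0, hC0, _, hne, _⟩ := G_data p.roots.toList
  rw [order_DD p hp hs]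
  have h1 : TT p.roots.toList riemannZeta s = 0 := by
    rw [DD_eq p s hs, mul_eq_zero] at h0
    exact h0.resolve_left (leadingCoeff_ne_zero.2 hp)
  have hpre : IsPreconnected ({1}ᶜ : Set ℂ) :=
    (isConnected_compl_singleton_of_one_lt_rank (by simp) (1 : ℂ)).isPreconnected
  exact (H370.Loc.mult_pos (f := TT p.roots.toList riemannZeta) (K := {1}ᶜ) hpre
    (fun z hz => TT_analytic _ hz) (c := ⟨σ0, 0⟩) (by
      intro h
      have := congrArg re h
      simp at this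
      linarith) (hne ⟨σ0, 0⟩ le_rfl) hs).2 h1

theorem DD_one : DD 1 = riemannZeta := by
  funext s
  unfold DD
  rw [← C_1, Polynomial.sum_C_index]
  · simp
  · simp

end Pool.Agent.N799.ZD
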