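import Pool.Agent.N799.ZD.Trans
import Pool.Agent.N798.DH2
import Pool.Agent.Y21.FW.Zeros

/-!
# The density hypothesis and the zeros of `p(d/ds) ζ`
-/

set_option autoImplicit false

open Complex Metric Set Filter Topology Polynomial

namespace Pool.Agent.N799.ZD

open Pool.Agent.N799.SP Pool.Agent.N799.LH Pool.Agent.N798.DH

/-- the zeros of `f` with real part at most `x`, in dyadic windows, are `O(T^(r + ε))` in number -/
def WB (f : ℂ → ℂ) (x r : ℝ) : Prop := ∀ ε : ℝ, 0 < ε → ∃ C T₀ : ℝ, ∀ T : ℝ, T₀ ≤ T →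
  ZL f {s | s.re ≤ x ∧ T ≤ s.im ∧ s.im ≤ 2 * T} (C * T ^ (r + ε))

theorem WB_wide {f : ℂ → ℂ} {x r : ℝ} (hr : 0 ≤ r) (h : WB f x r) (ε : ℝ) (hε : 0 < ε) :
    ∃ C T₀ : ℝ, 0 ≤ C ∧ ∀ T : ℝ, T₀ ≤ T →
      ZL f {s | s.re ≤ x ∧ T / 2 ≤ s.im ∧ s.im ≤ 4 * T} (C * T ^ (r + ε)) := by
  obtain ⟨C, T₀, hC⟩ := h ε hε
  refine ⟨3 * (|C| * 2 ^ (r + ε)), max (2 * T₀) (max T₀ 1), by positivity, fun T hT => ?_⟩
  have k1 : 2 * T₀ ≤ T := (le_max_left _ _).trans hT
  have k2 : T₀ ≤ T := ((le_max_left _ _).trans (le_max_right _ _)).trans hT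
  have k3 : 1 ≤ T := ((le_max_right _ _).trans (le_max_right _ _)).trans hT
  have hb : ∀ y : ℝ, 0 < y → y ≤ 2 * T → C * y ^ (r + ε) ≤ |C| * 2 ^ (r + ε) * T ^ (r + ε) := by
    intro y hy0 hy
    calc C * y ^ (r + ε) ≤ |C| * y ^ (r + ε) := by
          gcongr
          exact le_abs_self C
      _ ≤ |C| * (2 * T) ^ (r + ε) := by gcongr
      _ = |C| * 2 ^ (r + ε) * T ^ (r + ε) := by
          rw [Real.mul_rpow (by norm_num) (by linarith)]; ring
  have h1 := (hC (T / 2) (by linarith)).mono Subset.rfl (hb (T / 2) (by linarith) (by linarith))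
  have h2 := (hC T k2).mono Subset.rfl (hb T (by linarith) (by linarith))
  have h3 := (hC (2 * T) (by linarith)).mono Subset.rfl (hb (2 * T) (by linarith) le_rfl)
  refine ((h1.union h2).union h3).mono ?_ (le_of_eq (by ring))
  rintro s ⟨g1, g2, g3⟩
  rcases le_total s.im T with g4 | g4
  · exact Or.inl (Or.inl ⟨g1, g2, by linarith⟩)
  · rcases le_total s.im (2 * T) with g5 | g5
    · exact Or.inl (Or.inr ⟨g1, g4, g5⟩)
    · exact Or.inr ⟨g1, g5, by linarith⟩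

theorem WB_of {f g : ℂ → ℂ} {δ : ℝ}
    (hT : ∃ C T₀ : ℝ, 0 < C ∧ 4 ≤ T₀ ∧ ∀ T x M : ℝ, T₀ ≤ T → x ≤ 1 / 2 - δ →
      ZL f {s | s.re ≤ x + δ ∧ T / 2 ≤ s.im ∧ s.im ≤ 4 * T} M →
      ZL g {s | s.re ≤ x ∧ T ≤ s.im ∧ s.im ≤ 2 * T} (C * Real.log T * M))
    {x r : ℝ} (hx : x ≤ 1 / 2 - δ) (hr : 0 ≤ r) (h : WB f (x + δ) r) : WB g x r := by
  intro ε hε
  obtain ⟨C, T₀, hC, hT₀, h1⟩ := hT
  obtain ⟨C', T₁, hC', h2⟩ := WB_wide hr h (ε / 2) (by linarith)
  refine ⟨C * (1 / (ε / 2)) * C', max T₀ T₁, fun T hT => ?_⟩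
  have k1 : T₀ ≤ T := (le_max_left _ _).trans hT
  have k2 : T₁ ≤ T := (le_max_right _ _).trans hT
  refine (h1 T x _ k1 hx (h2 T k2)).mono Subset.rfl ?_
  have hl := log_le_rpow' (ε := ε / 2) (T := T) (by linarith) (by linarith)
  have hT0' : 0 ≤ T := by linarith
  have hTp : 0 ≤ T ^ (r + ε / 2) := Real.rpow_nonneg hT0' _
  calc C * Real.log T * (C' * T ^ (r + ε / 2))
      ≤ C * (1 / (ε / 2) * T ^ (ε / 2)) * (C' * T ^ (r + ε / 2)) := by
        gcongr
    _ = C * (1 / (ε / 2)) * C' * (T ^ (ε / 2) * T ^ (r + ε / 2)) := by ring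
    _ = C * (1 / (ε / 2)) * C' * T ^ (r + ε) := by
        rw [← Real.rpow_add (by linarith)]
        congr 2
        ring

theorem WB_D (p : ℂ[X]) (hp : p ≠ 0) {x δ r : ℝ} (hδ : 0 < δ) (hx : x ≤ 1 / 2 - δ) (hr : 0 ≤ r)
    (h : WB riemannZeta (x + δ) r) : WB (DD p) x r :=
  WB_of (zeta_to_D p hp δ hδ) hx hr h

theorem WB_zeta (p : ℂ[X]) (hp : p ≠ 0) {x δ r : ℝ} (hδ : 0 < δ) (hx : x ≤ 1 / 2 - δ) (hr : 0 ≤ r)
    (h : WB (DD p) (x + δ) r) : WB riemannZeta x r :=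
  WB_of (D_to_zeta p hp δ hδ) hx hr h

theorem WB_of_Cnt {σ r : ℝ} (hr : 0 ≤ r) (h : Cnt σ r) : WB riemannZeta (1 - σ) r := by
  intro ε hε
  obtain ⟨C, hC⟩ := h ε hε
  refine ⟨|C| * 2 ^ (r + ε), 1, fun T hT => ?_⟩
  have hT0 : 0 < T := by linarith
  have h1 : ZL riemannZeta {s | σ ≤ s.re ∧ 0 < s.im ∧ s.im ≤ 2 * T} (C * (2 * T) ^ (r + ε)) := by
    intro S hS
    have h2 := DH31.sum_le_cnt (DH31.zeros_finite σ (2 * T)) S (fun z hz => by
      obtain ⟨⟨g1, g2, g3⟩, g4⟩ := hS z hz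
      exact ⟨g4, g1, g2, g3⟩)
    have h3 := hC (2 * T) (by linarith)
    calc ∑ z ∈ S, (analyticOrderNatAt riemannZeta z : ℝ)
        = ((∑ z ∈ S, analyticOrderNatAt riemannZeta z : ℕ) : ℝ) := by push_cast; rfl
      _ ≤ (DH31.cnt (DH31.zeros σ (2 * T)) : ℝ) := by exact_mod_cast h2
      _ ≤ _ := h3
  have hne : ∀ z ∈ {s : ℂ | s.re ≤ 1 - σ ∧ T ≤ s.im ∧ s.im ≤ 2 * T}, z.im ≠ 0 := by
    rintro z ⟨_, g2, _⟩ g4
    linarith
  have hsym : ∀ z : ℂ, z.im ≠ 0 → analyticOrderNatAt riemannZeta z =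
      analyticOrderNatAt riemannZeta (rl z) := by
    intro z hz
    have := Pool.Agent.Y21.FW.mult_symm hz
    have e : rl z = 1 - (starRingEnd ℂ) z := by
      unfold rl
      rw [map_sub, map_one]
    rw [e, this]
  refine (ZL.comp rl_inj (f := riemannZeta) (g := riemannZeta) ?_ ?_ (V := {s | σ ≤ s.re ∧ 0 < s.im ∧
    s.im ≤ 2 * T}) ?_ h1).mono Subset.rfl ?_
  · intro z hz h0
    have him := hne z hz
    have him' : (rl z).im ≠ 0 := by rw [rl_im]; exact him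
    rw [← Pool.Agent.Y21.FW.mult_pos_iff (Pool.Agent.Y21.FW.ne_one him'), ← hsym z him,
      Pool.Agent.Y21.FW.mult_pos_iff (Pool.Agent.Y21.FW.ne_one him)]
    exact h0
  · intro z hz _
    exact hsym z (hne z hz)
  · rintro z ⟨g1, g2, g3⟩ _
    refine ⟨?_, ?_, ?_⟩
    · rw [rl_re]; linarith
    · rw [rl_im]; linarith
    · rw [rl_im]; linarith
  · calc C * (2 * T) ^ (r + ε) ≤ |C| * (2 * T) ^ (r + ε) := by
          gcongr
          exact le_abs_self C
      _ = |C| * 2 ^ (r + ε) * T ^ (r + ε) := by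
          rw [Real.mul_rpow (by norm_num) (by linarith)]; ring

theorem Cnt_of_WB {σ r : ℝ} (hr : 0 ≤ r) (h : WB riemannZeta (1 - σ) r) : Cnt σ r := by
  intro ε hε
  obtain ⟨C, T₀, hC⟩ := h (ε / 2) (by linarith)
  set T1 : ℝ := max T₀ 1 with hT1
  have hT11 : 1 ≤ T1 := le_max_right _ _
  have hsym : ∀ z : ℂ, z.im ≠ 0 → analyticOrderNatAt riemannZeta z =
      analyticOrderNatAt riemannZeta (rl z) := by
    intro z hz
    have := Pool.Agent.Y21.FW.mult_symm hz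
    have e : rl z = 1 - (starRingEnd ℂ) z := by
      unfold rl
      rw [map_sub, map_one]
    rw [e, this]
  -- right windows
  have hwin : ∀ T : ℝ, T1 ≤ T → ZL riemannZeta {s | σ ≤ s.re ∧ T ≤ s.im ∧ s.im ≤ 2 * T}
      (C * T ^ (r + ε / 2)) := by
    intro T hT
    have hT0 : 0 < T := by linarith
    have hne : ∀ z ∈ {s : ℂ | σ ≤ s.re ∧ T ≤ s.im ∧ s.im ≤ 2 * T}, z.im ≠ 0 := by
      rintro z ⟨_, g2, _⟩ g4
      linarith
    refine ZL.comp rl_inj (f := riemannZeta) (g := riemannZeta) ?_ ?_ (V := {s | s.re ≤ 1 - σ ∧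
      T ≤ s.im ∧ s.im ≤ 2 * T}) ?_ (hC T ((le_max_left _ _).trans hT))
    · intro z hz h0
      have him := hne z hz
      have him' : (rl z).im ≠ 0 := by rw [rl_im]; exact him
      rw [← Pool.Agent.Y21.FW.mult_pos_iff (Pool.Agent.Y21.FW.ne_one him'), ← hsym z him,
        Pool.Agent.Y21.FW.mult_pos_iff (Pool.Agent.Y21.FW.ne_one him)]
      exact h0
    · intro z hz _
      exact hsym z (hne z hz)
    · rintro z ⟨g1, g2, g3⟩ _
      refine ⟨?_, ?_, ?_⟩
      · rw [rl_re]; linarith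
      · rw [rl_im]; linarith
      · rw [rl_im]; linarith
  set D : ℝ := ((DH31.cnt (DH31.zeros σ T1) : ℕ) : ℝ) with hD
  have hD0 : 0 ≤ D := Nat.cast_nonneg _
  have hlow : ZL riemannZeta {s | σ ≤ s.re ∧ 0 < s.im ∧ s.im ≤ T1} D := by
    intro S hS
    have h2 := DH31.sum_le_cnt (DH31.zeros_finite σ T1) S (fun z hz => by
      obtain ⟨⟨g1, g2, g3⟩, g4⟩ := hS z hz
      exact ⟨g4, g1, g2, g3⟩)
    calc ∑ z ∈ S, (analyticOrderNatAt riemannZeta z : ℝ)
        = ((∑ z ∈ S, analyticOrderNatAt riemannZeta z : ℕ) : ℝ) := by push_cast; rfl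
      _ ≤ _ := by rw [hD]; exact_mod_cast h2
  have hall : ∀ n : ℕ, ZL riemannZeta {s | σ ≤ s.re ∧ 0 < s.im ∧ s.im ≤ T1 * 2 ^ n}
      (D + n * (|C| * (T1 * 2 ^ n) ^ (r + ε / 2))) := by
    intro n
    have h1 : ∀ k < n, ZL riemannZeta {s | σ ≤ s.re ∧ T1 * 2 ^ k ≤ s.im ∧ s.im ≤ 2 * (T1 * 2 ^ k)}
        (|C| * (T1 * 2 ^ n) ^ (r + ε / 2)) := by
      intro k hk
      have h2 : (1 : ℝ) ≤ 2 ^ k := one_le_pow₀ (by norm_num)
      have h3 : T1 ≤ T1 * 2 ^ k := le_mul_of_one_le_right (by linarith) h2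
      refine (hwin (T1 * 2 ^ k) h3).mono Subset.rfl ?_
      have h4 : T1 * 2 ^ k ≤ T1 * 2 ^ n := by
        gcongr
        · norm_num
      calc C * (T1 * 2 ^ k) ^ (r + ε / 2) ≤ |C| * (T1 * 2 ^ k) ^ (r + ε / 2) := by
            gcongr
            exact le_abs_self C
        _ ≤ |C| * (T1 * 2 ^ n) ^ (r + ε / 2) := by gcongr
    refine (hlow.union (ZL.iUnion n h1)).mono ?_ le_rfl
    rintro s ⟨g1, g2, g3⟩
    rcases le_or_gt s.im T1 with g4 | g4
    · exact Or.inl ⟨g1, g2, g4⟩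
    right
    simp only [mem_iUnion]
    clear h1
    induction n with
    | zero => simp at g3; linarith
    | succ m ih =>
      rcases le_total s.im (T1 * 2 ^ m) with g5 | g5
      · obtain ⟨k, hk, hs⟩ := ih g5
        exact ⟨k, by omega, hs⟩
      · exact ⟨m, by omega, g1, g5, by rw [pow_succ] at g3; linarith⟩
  refine ⟨D + (2 / Real.log 2 * (1 / (ε / 2)) + 1) * (|C| * (2 * T1) ^ (r + ε / 2)), fun T hT => ?_⟩
  have hT0 : 0 < T := by linarith
  have hlog2 : 0 < Real.log 2 := Real.log_pos (by norm_num)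
  set n : ℕ := ⌈Real.logb 2 T⌉₊ with hn
  have hlb : 0 ≤ Real.logb 2 T := Real.logb_nonneg (by norm_num) hT
  have hn1 : Real.logb 2 T ≤ n := Nat.le_ceil _
  have hn2 : (n : ℝ) < Real.logb 2 T + 1 := Nat.ceil_lt_add_one hlb
  have hTn : T ≤ 2 ^ n := by
    rw [← Real.rpow_natCast, ← Real.logb_le_iff_le_rpow (by norm_num) hT0]
    exact hn1
  have hnT : (2 : ℝ) ^ n ≤ 2 * T := by
    rw [← Real.rpow_natCast]
    calc (2 : ℝ) ^ (n : ℝ) ≤ 2 ^ (Real.logb 2 T + 1) :=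
          Real.rpow_le_rpow_of_exponent_le (by norm_num) hn2.le
      _ = 2 * T := by
          rw [Real.rpow_add (by norm_num), Real.rpow_logb (by norm_num) (by norm_num) hT0,
            Real.rpow_one]
          ring
  have hcnt : (DH31.cnt (DH31.zeros σ T) : ℝ) ≤ D + n * (|C| * (T1 * 2 ^ n) ^ (r + ε / 2)) := by
    rw [DH31.cnt_eq (DH31.zeros_finite σ T)]
    push_cast
    refine hall n _ ?_
    intro z hz
    rw [Set.Finite.mem_toFinset] at hz
    obtain ⟨g1, g2, g3, g4⟩ := hz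
    refine ⟨⟨g2, g3, ?_⟩, g1⟩
    calc z.im ≤ T := g4
      _ ≤ 2 ^ n := hTn
      _ ≤ T1 * 2 ^ n := le_mul_of_one_le_left (by positivity) hT11
  have hp1 : 1 ≤ T ^ (r + ε) := Real.one_le_rpow hT (by linarith)
  have hp2 : 1 ≤ T ^ (ε / 2) := Real.one_le_rpow hT (by linarith)
  have hl := log_le_rpow' (ε := ε / 2) (T := T) (by linarith) hT
  have hnb : (n : ℝ) ≤ (2 / Real.log 2 * (1 / (ε / 2)) + 1) * T ^ (ε / 2) := by
    have h1 : Real.logb 2 T ≤ 2 / Real.log 2 * (1 / (ε / 2)) * T ^ (ε / 2) := by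
      have h2 : Real.logb 2 T = 1 / Real.log 2 * Real.log T := by
        rw [Real.logb]; ring
      rw [h2]
      calc 1 / Real.log 2 * Real.log T ≤ 1 / Real.log 2 * (1 / (ε / 2) * T ^ (ε / 2)) := by gcongr
        _ ≤ 2 / Real.log 2 * (1 / (ε / 2) * T ^ (ε / 2)) := by
            gcongr
            norm_num
        _ = _ := by ring
    nlinarith
  refine hcnt.trans ?_
  calc D + n * (|C| * (T1 * 2 ^ n) ^ (r + ε / 2))
      ≤ D * T ^ (r + ε) + ((2 / Real.log 2 * (1 / (ε / 2)) + 1) * T ^ (ε / 2)) *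
          (|C| * (T1 * (2 * T)) ^ (r + ε / 2)) := by
        gcongr
        exact le_mul_of_one_le_right hD0 hp1
    _ = (D + (2 / Real.log 2 * (1 / (ε / 2)) + 1) * (|C| * (2 * T1) ^ (r + ε / 2))) *
          T ^ (r + ε) := by
        have e1 : T1 * (2 * T) = (2 * T1) * T := by ring
        have e2 : T ^ (r + ε) = T ^ (ε / 2) * T ^ (r + ε / 2) := by
          rw [← Real.rpow_add hT0]
          congr 1
          ring
        rw [e1, Real.mul_rpow (by positivity) hT0.le, e2]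
        ring

/-- single abscissa -/
theorem single_D (p : ℂ[X]) (hp : p ≠ 0) {σ₀ r : ℝ} (hσ : 1 / 2 ≤ σ₀) (hr : 0 ≤ r) :
    (∀ σ : ℝ, σ₀ < σ → Cnt σ r) ↔ ∀ x : ℝ, x < 1 - σ₀ → WB (DD p) x r := by
  constructor
  · intro h x hx
    set δ : ℝ := (1 - σ₀ - x) / 2 with hδ
    have hδ0 : 0 < δ := by rw [hδ]; linarith
    refine WB_D p hp hδ0 (by rw [hδ]; linarith) hr ?_
    have h1 := WB_of_Cnt hr (h (1 - (x + δ)) (by rw [hδ]; linarith))
    rwa [sub_sub_cancel] at h1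
  · intro h σ hσ'
    set δ : ℝ := (σ - σ₀) / 2 with hδ
    have hδ0 : 0 < δ := by rw [hδ]; linarith
    refine Cnt_of_WB hr ?_
    exact WB_zeta p hp hδ0 (by rw [hδ]; linarith) hr (h _ (by rw [hδ]; linarith))

/-- the density bound with the exponent `A (1 - σ)` -/
theorem density_D (p : ℂ[X]) (hp : p ≠ 0) {A : ℝ} (hA : 2 ≤ A) :
    Den A ↔ ∀ x : ℝ, 0 < x → A * x < 1 → WB (DD p) x (A * x) := by
  have hA0 : 0 < A := by linarith
  constructor
  · intro h x hx0 hx1 ε hε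
    have hall := all_of_den hA h
    have hx2 : x < 1 / 2 := by nlinarith
    set δ : ℝ := min (ε / (2 * A)) (min ((1 / 2 - x) / 2) ((1 - A * x) / (2 * A))) with hδ
    have hδ0 : 0 < δ := by
      rw [hδ]
      refine lt_min (by positivity) (lt_min (by linarith) (div_pos (by linarith) (by positivity)))
    have hδ1 : A * δ ≤ ε / 2 := by
      have : δ ≤ ε / (2 * A) := min_le_left _ _
      calc A * δ ≤ A * (ε / (2 * A)) := by gcongr
        _ = ε / 2 := by field_simp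
    have hδ2 : δ ≤ (1 / 2 - x) / 2 := (min_le_right _ _).trans (min_le_left _ _)
    have hδ3 : A * δ ≤ (1 - A * x) / 2 := by
      have : δ ≤ (1 - A * x) / (2 * A) := (min_le_right _ _).trans (min_le_right _ _)
      calc A * δ ≤ A * ((1 - A * x) / (2 * A)) := by gcongr
        _ = (1 - A * x) / 2 := by field_simp
    have h1 : Cnt (1 - (x + δ)) (A * (x + δ)) := by
      have := hall (1 - (x + δ)) (by linarith) (by linarith) (by
        rw [sub_sub_cancel, mul_add]; linarith)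
      rwa [sub_sub_cancel] at this
    have hr : 0 ≤ A * (x + δ) := by positivity
    have h2 := WB_of_Cnt hr h1
    rw [sub_sub_cancel] at h2
    obtain ⟨C, T₀, h3⟩ := WB_D p hp hδ0 (by linarith) hr h2 (ε / 2) (by linarith)
    refine ⟨|C|, max T₀ 1, fun T hT => (h3 T ((le_max_left _ _).trans hT)).mono Subset.rfl ?_⟩
    have hT1 : 1 ≤ T := (le_max_right _ _).trans hT
    calc C * T ^ (A * (x + δ) + ε / 2) ≤ |C| * T ^ (A * (x + δ) + ε / 2) := by
          gcongr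
          exact le_abs_self C
      _ ≤ |C| * T ^ (A * x + ε) :=
          mul_le_mul_of_nonneg_left (Real.rpow_le_rpow_of_exponent_le hT1
            (by rw [mul_add]; linarith)) (abs_nonneg _)
  · intro h
    refine den_of_all hA ?_
    intro σ hσ1 hσ2 hσ3 ε hε
    set x : ℝ := 1 - σ with hx
    have hx0 : 0 < x := by rw [hx]; linarith
    have hx2 : x < 1 / 2 := by nlinarith
    set δ : ℝ := min (ε / (2 * A)) (min ((1 / 2 - x) / 2) ((1 - A * x) / (2 * A))) with hδ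
    have hδ0 : 0 < δ := by
      rw [hδ]
      refine lt_min (by positivity) (lt_min (by linarith) (div_pos (by linarith) (by positivity)))
    have hδ1 : A * δ ≤ ε / 2 := by
      have : δ ≤ ε / (2 * A) := min_le_left _ _
      calc A * δ ≤ A * (ε / (2 * A)) := by gcongr
        _ = ε / 2 := by field_simp
    have hδ2 : δ ≤ (1 / 2 - x) / 2 := (min_le_right _ _).trans (min_le_left _ _)
    have hδ3 : A * δ ≤ (1 - A * x) / 2 := by
      have : δ ≤ (1 - A * x) / (2 * A) := (min_le_right _ _).trans (min_le_right _ _)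
      calc A * δ ≤ A * ((1 - A * x) / (2 * A)) := by gcongr
        _ = (1 - A * x) / 2 := by field_simp
    have hr : 0 ≤ A * (x + δ) := by positivity
    have h1 : WB (DD p) (x + δ) (A * (x + δ)) := h (x + δ) (by linarith) (by
      rw [mul_add]; linarith)
    have h2 := WB_zeta p hp hδ0 (by linarith) hr h1
    have h3 := Cnt_of_WB (σ := σ) hr (by rw [← hx]; exact h2)
    obtain ⟨C, h4⟩ := h3 (ε / 2) (by linarith)
    refine ⟨|C|, fun T hT => (h4 T hT).trans ?_⟩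
    calc C * T ^ (A * (x + δ) + ε / 2) ≤ |C| * T ^ (A * (x + δ) + ε / 2) := by
          gcongr
          exact le_abs_self C
      _ ≤ |C| * T ^ (A * x + ε) :=
          mul_le_mul_of_nonneg_left (Real.rpow_le_rpow_of_exponent_le hT
            (by rw [mul_add]; linarith)) (abs_nonneg _)

end Pool.Agent.N799.ZD
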