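import Pool.Agent.N799.ZD.Cnt

/-!
# Transfer of the number of zeros in long windows
-/

set_option autoImplicit false

open Complex Metric Set Filter Topology Polynomial

namespace Pool.Agent.N799.ZD

open Pool.Agent.N799.SP Pool.Agent.N799.LH

/-- the zeros of `g` in a window of fixed length -/
theorem win_count {g : ℂ → ℂ} {C t1 : ℝ} (hC : 0 < C) (ht1 : 4 ≤ t1)
    (hg : ∀ t : ℝ, t1 ≤ t → ZL g {s | s.re ≤ 1 / 2 ∧ |s.im - t| ≤ 1} (C * Real.log t)) (H : ℝ) :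
    ∃ C' T₀ : ℝ, 0 < C' ∧ 4 ≤ T₀ ∧ ∀ T y : ℝ, T₀ ≤ T → T / 2 ≤ y → y ≤ 4 * T →
      ZL g {s | s.re ≤ 1 / 2 ∧ |s.im - y| ≤ H} (C' * Real.log T) := by
  obtain ⟨N, hN⟩ := exists_nat_gt (2 * |H| + 2)
  have hN0 : (0 : ℝ) < N := by
    have := abs_nonneg H
    linarith
  refine ⟨N * (C * 5), max (2 * t1 + 4 * |H| + 16) (4 * (N + |H| + 5)), by positivity, ?_, ?_⟩
  · have := abs_nonneg H
    exact le_trans (by linarith) (le_max_left _ _)
  intro T y hT hy1 hy2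
  have hH0 := abs_nonneg H
  have hH1 := le_abs_self H
  have k1 : 2 * t1 + 4 * |H| + 16 ≤ T := (le_max_left _ _).trans hT
  have k2 : 4 * ((N : ℝ) + |H| + 5) ≤ T := (le_max_right _ _).trans hT
  have hT0 : 0 ≤ T := by linarith
  have hlogT : 0 ≤ Real.log T := Real.log_nonneg (by linarith)
  have h1 : ∀ k < N, ZL g {s | s.re ≤ 1 / 2 ∧ |s.im - (y - |H| + k)| ≤ 1} (C * 5 * Real.log T) := by
    intro k hk
    have hk' : (k : ℝ) ≤ N := by exact_mod_cast hk.le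
    have hk0 : (0 : ℝ) ≤ k := Nat.cast_nonneg k
    refine (hg (y - |H| + k) (by linarith)).mono Subset.rfl ?_
    have h2 : y - |H| + k ≤ T ^ (5 : ℕ) := by
      have h3 : y - |H| + k ≤ 5 * T := by linarith
      have h4 : 5 * T ≤ T ^ (5 : ℕ) := by
        have h5 : (5 : ℝ) ≤ T ^ 4 := by
          have : (16 : ℝ) ≤ T := by linarith
          calc (5 : ℝ) ≤ 16 ^ 4 := by norm_num
            _ ≤ T ^ 4 := by gcongr
        calc 5 * T ≤ T ^ 4 * T := by gcongr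
          _ = T ^ (5 : ℕ) := by ring
      linarith
    have h3 : Real.log (y - |H| + k) ≤ 5 * Real.log T := by
      calc Real.log (y - |H| + k) ≤ Real.log (T ^ (5 : ℕ)) := Real.log_le_log (by linarith) h2
        _ = 5 * Real.log T := by rw [Real.log_pow]; norm_num
    calc C * Real.log (y - |H| + k) ≤ C * (5 * Real.log T) := by gcongr
      _ = C * 5 * Real.log T := by ring
  refine (ZL.iUnion N h1).mono ?_ (le_of_eq (by ring))
  rintro z ⟨hz1, hz2⟩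
  have hz3 := abs_le.1 hz2
  set k : ℕ := ⌊z.im - (y - |H|)⌋₊ with hk
  have hk1 := Nat.floor_le (show 0 ≤ z.im - (y - |H|) by linarith)
  have hk2 := Nat.lt_floor_add_one (z.im - (y - |H|))
  rw [← hk] at hk1 hk2
  have hkN : k < N := by
    have : (k : ℝ) < N := by linarith
    exact_mod_cast this
  simp only [mem_iUnion]
  refine ⟨k, hkN, hz1, ?_⟩
  rw [abs_le]; constructor <;> linarith

/-- transfer of a bound for the number of the zeros of `f` to the zeros of `g` -/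
theorem transfer {f g : ℂ → ℂ} {δ H t0 t1 C : ℝ} (hC : 0 < C) (ht1 : 4 ≤ t1)
    (hcor : ∀ s : ℂ, g s = 0 → s.re ≤ 1 / 2 - δ → t0 ≤ |s.im| →
      ∃ z : ℂ, f z = 0 ∧ z.re ≤ s.re + δ ∧ |z.im - s.im| ≤ H)
    (hg : ∀ t : ℝ, t1 ≤ t → ZL g {s | s.re ≤ 1 / 2 ∧ |s.im - t| ≤ 1} (C * Real.log t))
    (hpos : ∀ z : ℂ, 1 < z.im → f z = 0 → 1 ≤ analyticOrderNatAt f z) (hδ : 0 ≤ δ) :
    ∃ C' T₀ : ℝ, 0 < C' ∧ 4 ≤ T₀ ∧ ∀ T x M : ℝ, T₀ ≤ T → x ≤ 1 / 2 - δ →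
      ZL f {s | s.re ≤ x + δ ∧ T / 2 ≤ s.im ∧ s.im ≤ 4 * T} M →
      ZL g {s | s.re ≤ x ∧ T ≤ s.im ∧ s.im ≤ 2 * T} (C' * Real.log T * M) := by
  classical
  obtain ⟨C', T₀, hC', hT₀, hwin⟩ := win_count hC ht1 hg H
  refine ⟨C', max T₀ (max t0 (2 * |H|)), hC', hT₀.trans (le_max_left _ _), ?_⟩
  intro T x M hT hx hf S hS
  have k1 : T₀ ≤ T := (le_max_left _ _).trans hT
  have k2 : t0 ≤ T := ((le_max_left _ _).trans (le_max_right _ _)).trans hT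
  have k3 : 2 * |H| ≤ T := ((le_max_right _ _).trans (le_max_right _ _)).trans hT
  have hH1 := le_abs_self H
  have hlogT : 0 ≤ Real.log T := Real.log_nonneg (by linarith)
  have hex : ∀ s : ℂ, ∃ z : ℂ, s ∈ S → f z = 0 ∧ z.re ≤ x + δ ∧ |z.im - s.im| ≤ H := by
    intro s
    by_cases hs : s ∈ S
    · obtain ⟨⟨h1, h2, h3⟩, h4⟩ := hS s hs
      obtain ⟨z, g1, g2, g3⟩ := hcor s h4 (h1.trans hx) (by
        rw [abs_of_nonneg (by linarith)]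
        linarith)
      exact ⟨z, fun _ => ⟨g1, by linarith, g3⟩⟩
    · exact ⟨0, fun h => absurd h hs⟩
  choose zz hzz using hex
  have hzm : ∀ s ∈ S, T / 2 ≤ (zz s).im ∧ (zz s).im ≤ 4 * T := by
    intro s hs
    obtain ⟨⟨h1, h2, h3⟩, h4⟩ := hS s hs
    obtain ⟨g1, g2, g3⟩ := hzz s hs
    have g3' := abs_le.1 g3
    constructor <;> linarith
  have hmaps : ∀ s ∈ S, zz s ∈ S.image zz := fun s hs => Finset.mem_image_of_mem _ hs
  rw [← Finset.sum_fiberwise_of_maps_to hmaps]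
  have hfib : ∀ z ∈ S.image zz, ∑ s ∈ S with zz s = z, (analyticOrderNatAt g s : ℝ) ≤
      C' * Real.log T := by
    intro z hz
    obtain ⟨s0, hs0, rfl⟩ := Finset.mem_image.1 hz
    obtain ⟨m1, m2⟩ := hzm s0 hs0
    refine hwin T (zz s0).im k1 m1 m2 _ ?_
    intro s hs
    rw [Finset.mem_filter] at hs
    obtain ⟨⟨h1, h2, h3⟩, h4⟩ := hS s hs.1
    obtain ⟨g1, g2, g3⟩ := hzz s hs.1
    refine ⟨⟨by linarith, ?_⟩, h4⟩
    rw [← hs.2, abs_sub_comm]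
    exact g3
  calc ∑ z ∈ S.image zz, ∑ s ∈ S with zz s = z, (analyticOrderNatAt g s : ℝ)
      ≤ ∑ z ∈ S.image zz, C' * Real.log T := Finset.sum_le_sum hfib
    _ = C' * Real.log T * (S.image zz).card := by
        rw [Finset.sum_const, nsmul_eq_mul]; ring
    _ ≤ C' * Real.log T * M := by
        gcongr
        have hz0 : ∀ z ∈ S.image zz, z ∈ {s : ℂ | s.re ≤ x + δ ∧ T / 2 ≤ s.im ∧ s.im ≤ 4 * T} ∧
            f z = 0 := by
          intro z hz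
          obtain ⟨s0, hs0, rfl⟩ := Finset.mem_image.1 hz
          obtain ⟨g1, g2, g3⟩ := hzz s0 hs0
          obtain ⟨m1, m2⟩ := hzm s0 hs0
          exact ⟨⟨g2, m1, m2⟩, g1⟩
        refine le_trans ?_ (hf _ hz0)
        rw [Finset.card_eq_sum_ones]
        push_cast
        refine Finset.sum_le_sum fun z hz => ?_
        obtain ⟨⟨_, h2, _⟩, h4⟩ := hz0 z hz
        have h5 : 4 ≤ T := hT₀.trans k1
        exact_mod_cast hpos z (by linarith) h4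

/-- from the zeros of `ζ` to the zeros of `p(d/ds) ζ` -/
theorem zeta_to_D (p : ℂ[X]) (hp : p ≠ 0) (δ : ℝ) (hδ : 0 < δ) :
    ∃ C T₀ : ℝ, 0 < C ∧ 4 ≤ T₀ ∧ ∀ T x M : ℝ, T₀ ≤ T → x ≤ 1 / 2 - δ →
      ZL riemannZeta {s | s.re ≤ x + δ ∧ T / 2 ≤ s.im ∧ s.im ≤ 4 * T} M →
      ZL (DD p) {s | s.re ≤ x ∧ T ≤ s.im ∧ s.im ≤ 2 * T} (C * Real.log T * M) := by
  obtain ⟨H, t0, h⟩ := (main p hp).1 δ hδ
  obtain ⟨C, t1, hC, ht1, hc⟩ := D_count p hp
  refine transfer (H := δ) (t0 := t0) hC ht1 h.2 hc (fun z hz h0 => ?_) hδ.le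
  have := D_pos 1 one_ne_zero (s := z) (fun h => by rw [h, one_im] at hz; linarith)
    (by rw [DD_one]; exact h0)
  rwa [DD_one] at this

/-- from the zeros of `p(d/ds) ζ` to the zeros of `ζ` -/
theorem D_to_zeta (p : ℂ[X]) (hp : p ≠ 0) (δ : ℝ) (hδ : 0 < δ) :
    ∃ C T₀ : ℝ, 0 < C ∧ 4 ≤ T₀ ∧ ∀ T x M : ℝ, T₀ ≤ T → x ≤ 1 / 2 - δ →
      ZL (DD p) {s | s.re ≤ x + δ ∧ T / 2 ≤ s.im ∧ s.im ≤ 4 * T} M →
      ZL riemannZeta {s | s.re ≤ x ∧ T ≤ s.im ∧ s.im ≤ 2 * T} (C * Real.log T * M) := by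
  obtain ⟨H, t0, h⟩ := (main p hp).1 δ hδ
  obtain ⟨C, t1, hC, ht1, hc⟩ := D_count 1 one_ne_zero
  rw [DD_one] at hc
  refine transfer (H := H) (t0 := t0) hC ht1 h.1 hc (fun z hz h0 => ?_) hδ.le
  exact D_pos p hp (fun h => by rw [h, one_im] at hz; linarith) h0

end Pool.Agent.N799.ZD
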